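import Pool.Agent.ZES.StmtsG

/-!
ZES, row DER: derivatives in `E ^ (2 m)`.
-/

namespace Pool.Agent.ZES.H69

open Filter Topology

/-- **Row DER**. -/
theorem der (hpwd : PwdStmt) (hflm : FlmStmt) (hadm : AdmStmt) : DerStmt := by
  intro V _ _ E hE m f hf q hq v
  have hfd : Differentiable ℂ f := (hpwd V E hE m).1 f hf
  have hfin : Module.Finite ℂ ↥(E ^ (2 * m)) := (hpwd V E hE (2 * m)).2.1
  have hqd : Differentiable ℂ q := hE.dif q hq
  have hh : ∀ t : ℂ, (fun x => f (x + t • v) * q (x - t • v) ^ m) ∈ E ^ (2 * m) :=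
    fun t => (hadm V E hE m f hf).1 q hq (t • v)
  refine hflm V (E ^ (2 * m)) hfin
    (fun n => (1 / ((n : ℂ) + 1))⁻¹ •
      ((fun x => f (x + (1 / ((n : ℂ) + 1)) • v) * q (x - (1 / ((n : ℂ) + 1)) • v) ^ m)
        - (fun x => f (x + (0 : ℂ) • v) * q (x - (0 : ℂ) • v) ^ m))) _
    (fun n => Submodule.smul_mem _ _ (Submodule.sub_mem _ (hh _) (hh _))) ?_
  intro x
  have hline : HasDerivAt (fun t : ℂ => x + t • v) v 0 := by
    have h1 : HasDerivAt (fun t : ℂ => t • v) ((1 : ℂ) • v) 0 :=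
      (hasDerivAt_id (0 : ℂ)).smul_const v
    rw [one_smul] at h1
    exact h1.const_add x
  have hline2 : HasDerivAt (fun t : ℂ => x - t • v) (-v) 0 := by
    have h1 : HasDerivAt (fun t : ℂ => t • v) ((1 : ℂ) • v) 0 :=
      (hasDerivAt_id (0 : ℂ)).smul_const v
    rw [one_smul] at h1
    exact h1.const_sub x
  have hx0 : x + (0 : ℂ) • v = x := by rw [zero_smul, add_zero]
  have hx1 : x - (0 : ℂ) • v = x := by rw [zero_smul, sub_zero]
  have hf1 : HasDerivAt (fun t : ℂ => f (x + t • v)) (fderiv ℂ f x v) 0 := by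
    have h2 : HasFDerivAt f (fderiv ℂ f x) (x + (0 : ℂ) • v) := by
      rw [hx0]
      exact (hfd x).hasFDerivAt
    exact h2.comp_hasDerivAt (0 : ℂ) hline
  have hq1 : HasDerivAt (fun t : ℂ => q (x - t • v)) (fderiv ℂ q x (-v)) 0 := by
    have h2 : HasFDerivAt q (fderiv ℂ q x) (x - (0 : ℂ) • v) := by
      rw [hx1]
      exact (hqd x).hasFDerivAt
    exact h2.comp_hasDerivAt (0 : ℂ) hline2
  have hq2 := hq1.pow m
  have hfin2 := hf1.mul hq2
  have hder : HasDerivAt (fun t : ℂ => f (x + t • v) * q (x - t • v) ^ m)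
      (fderiv ℂ f x v * q x ^ m - (m : ℂ) * f x * q x ^ (m - 1) * fderiv ℂ q x v) 0 := by
    refine hfin2.congr_deriv ?_
    simp only [Pi.pow_apply, hx0, hx1, map_neg]
    ring
  have hslope := hder.tendsto_slope_zero
  have htn : Tendsto (fun n : ℕ => (1 : ℂ) / ((n : ℂ) + 1)) atTop (𝓝[≠] (0 : ℂ)) := by
    rw [tendsto_nhdsWithin_iff]
    refine ⟨tendsto_one_div_add_atTop_nhds_zero_nat, Eventually.of_forall (fun n => ?_)⟩
    have hn : ((n : ℂ) + 1) ≠ 0 := Nat.cast_add_one_ne_zero n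
    exact one_div_ne_zero hn
  have hcomp := hslope.comp htn
  refine hcomp.congr (fun n => ?_)
  simp only [Function.comp, Pi.smul_apply, Pi.sub_apply, zero_add]

end Pool.Agent.ZES.H69
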