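import Pool.Agent.ZES.StmtsB

/-!
ZES, row PSI: the factor in the direction of the subspace.
-/

namespace Pool.Agent.ZES.H69

open scoped BigOperators InnerProductSpace

theorem psi (htrn : TrnStmt) : PsiStmt := by
  intro V _ _ _ L χ hL W t ht lam hlam
  obtain ⟨G, C, hGd, hC, hG0, hGp, hGg, -⟩ := htrn V L χ hL 2 t ht lam
  refine ⟨fun x => G (W.starProjection x), C, hGd.comp W.starProjection.differentiable, hC,
    ?_, ?_, ?_⟩
  · intro h
    have h1 : G (W.starProjection (0 : V)) = 0 := h
    rw [map_zero] at h1
    have h2 := (hG0 0).1 h1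
    rw [zero_add] at h2
    exact hlam h2
  · intro ω hω hωW x
    have h1 : W.starProjection (x + ω) = W.starProjection x + ω := by
      rw [map_add, Submodule.starProjection_eq_self_iff.2 hωW]
    have h2 : (inner ℂ ω (W.starProjection x) : ℂ) = inner ℂ ω x := by
      have h3 : (inner ℂ ω (x - W.starProjection x) : ℂ) = 0 :=
        Submodule.inner_right_of_mem_orthogonal hωW (Submodule.sub_starProjection_mem_orthogonal x)
      rw [inner_sub_right] at h3
      exact (sub_eq_zero.1 h3).symm
    have h4 : al (Real.pi * 2) ω (W.starProjection x) = al (Real.pi * 2) ω x := by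
      unfold al
      rw [h2]
    have h5 := hGp ω hω (W.starProjection x)
    have h6 : ((2 : ℕ) : ℝ) = 2 := by norm_num
    have h7 : ((2 : ℕ) : ℂ) = 2 := by norm_num
    rw [h6, h7] at h5
    show G (W.starProjection (x + ω)) = _
    rw [h1, h5, h4]
  · intro x
    have h := hGg (W.starProjection x)
    have h6 : Real.pi * ((2 : ℕ) : ℝ) / 2 = Real.pi := by
      push_cast
      ring
    rw [h6] at h
    exact h

end Pool.Agent.ZES.H69
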